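import Pool.Agent.W966.Vg.Stms2

set_option autoImplicit false
set_option maxHeartbeats 400000

namespace Pool.Agent.W191.VH

open MvPolynomial Pool.Agent.W966.Vg

variable {K ι : Type} [Field K] [Fintype ι]

/-- substitution of `0` for the variable `none` -/
noncomputable def sb (K ι : Type) [Field K] : MvPolynomial (Option ι) K →ₐ[K] MvPolynomial ι K :=
  aeval (fun o => Option.elim o 0 X)

/-- exponents -/
noncomputable def em (m : ι →₀ ℕ) : Option ι →₀ ℕ := m.embDomain Function.Embedding.some

omit [Fintype ι] in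
lemma em_none (m : ι →₀ ℕ) : em m none = 0 := by
  unfold em
  refine Finsupp.embDomain_of_notMem_range _ _ _ ?_
  rintro ⟨i, hi⟩
  exact Option.some_ne_none i hi

omit [Fintype ι] in
lemma em_some (m : ι →₀ ℕ) (i : ι) : em m (some i) = m i := by
  unfold em
  exact Finsupp.embDomain_apply_self Function.Embedding.some m i

omit [Fintype ι] in
lemma em_iff (n : Option ι →₀ ℕ) (m : ι →₀ ℕ) : n = em m ↔ n none = 0 ∧ ∀ i, n (some i) = m i := by
  constructor
  · rintro rfl
    exact ⟨em_none m, em_some m⟩
  · rintro ⟨h0, h1⟩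
    ext o
    cases o with
    | none => rw [h0, em_none]
    | some i => rw [h1, em_some]

lemma sb_monomial (n : Option ι →₀ ℕ) (a : K) (m : ι →₀ ℕ) :
    coeff m (sb K ι (monomial n a)) = coeff (em m) (monomial n a) := by
  classical
  unfold sb
  rw [aeval_monomial, Finsupp.prod_fintype _ _ (fun _ => pow_zero _), Fintype.prod_option,
    coeff_monomial]
  change coeff m ((algebraMap K (MvPolynomial ι K)) a *
    ((0 : MvPolynomial ι K) ^ n none * ∏ i : ι, X i ^ n (some i))) = _
  by_cases h0 : n none = 0
  · rw [h0, pow_zero, one_mul]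
    have h1 : (∏ i : ι, (X i : MvPolynomial ι K) ^ n (some i)) =
        monomial (Finsupp.equivFunOnFinite.symm fun i => n (some i)) 1 := by
      rw [monomial_eq, C_1, one_mul, Finsupp.prod_fintype _ _ (fun _ => pow_zero _)]
      rfl
    rw [h1, algebraMap_eq, C_mul_monomial, mul_one, coeff_monomial]
    by_cases h : n = em m
    · rw [if_pos h, if_pos]
      ext i
      exact ((em_iff n m).1 h).2 i
    · rw [if_neg h, if_neg]
      intro h2
      refine h ((em_iff n m).2 ⟨h0, fun i => ?_⟩)
      rw [← h2]
      rfl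
  · rw [zero_pow h0, zero_mul, mul_zero, coeff_zero, if_neg]
    intro h
    exact h0 ((em_iff n m).1 h).1

lemma sb_coeff (g : MvPolynomial (Option ι) K) (m : ι →₀ ℕ) :
    coeff m (sb K ι g) = coeff (em m) g := by
  induction g using MvPolynomial.induction_on' with
  | monomial u a => exact sb_monomial u a m
  | add p q hp hq => rw [map_add, coeff_add, coeff_add, hp, hq]

/-- restriction of linear forms -/
def rs (f : LF K (Option ι)) : LF K ι := ⟨f.c, fun i => f.x (some i), f.r⟩

/-- multiplication of linear forms by a constant -/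
def sc (c : K) (f : LF K ι) : LF K ι := ⟨c * f.c, fun i => c * f.x i, fun s => c * f.r s⟩

lemma rs_val (f : LF K (Option ι)) (l : ℕ) (g : ℕ → MvPolynomial (Option ι) K) :
    (rs f).val X l (fun s => sb K ι (g s)) = sb K ι (f.val X l g) := by
  unfold LF.val rs
  rw [map_add, map_add, map_sum, map_sum, Fintype.sum_option, AlgHom.commutes]
  have h0 : sb K ι (algebraMap K _ (f.x none) * X none) = 0 := by
    rw [map_mul]
    unfold sb
    rw [aeval_X]
    simp
  rw [h0, zero_add]
  congr 1
  · congr 1
    refine Finset.sum_congr rfl fun i _ => ?_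
    rw [map_mul, AlgHom.commutes]
    unfold sb
    rw [aeval_X]
    rfl
  · refine Finset.sum_congr rfl fun s _ => ?_
    rw [map_mul, AlgHom.commutes]

lemma sc_val (c : K) (f : LF K ι) (l : ℕ) (g : ℕ → MvPolynomial ι K) :
    (sc c f).val X l g = C c * f.val X l g := by
  unfold LF.val sc
  simp only [map_mul, algebraMap_eq, mul_add, Finset.mul_sum, mul_assoc]

lemma comp (M : ℕ) (c : K) (g : Unit → MvPolynomial (Option ι) K)
    (h : NSComp K (Option ι) Unit M g) :
    NSComp K ι Unit M (fun v => C c * sb K ι (g v)) := by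
  obtain ⟨a, b, o, G, hG, ho⟩ := h
  refine ⟨fun r => rs (a r), fun r => rs (b r), fun v => sc c (rs (o v)),
    fun s => sb K ι (G s), fun r hr => ?_, fun v => ?_⟩
  · rw [rs_val, rs_val, ← map_mul, ← hG r hr]
  · rw [sc_val, rs_val, ← ho v]

theorem sub : S_SUB := by
  intro K ι _ _ M a c f hc hcl h hh
  let h' : MvPolynomial (Unit × (Option ι →₀ ℕ)) K :=
    bind₁ (fun p : Unit × (ι →₀ ℕ) => C c * X (p.1, em p.2)) h
  have key : ∀ g : Unit → MvPolynomial (Option ι) K,
      eval (fun p => coeff p.2 (g p.1)) h' =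
        eval (fun p : Unit × (ι →₀ ℕ) => coeff p.2 (C c * sb K ι (g p.1))) h := by
    intro g
    have e1 := aeval_bind₁ (fun p : Unit × (Option ι →₀ ℕ) => coeff p.2 (g p.1))
      (fun p : Unit × (ι →₀ ℕ) => (C c * X (p.1, em p.2) : MvPolynomial (Unit × (Option ι →₀ ℕ)) K))
      h
    have e2 : ∀ p : Unit × (ι →₀ ℕ), aeval (fun p : Unit × (Option ι →₀ ℕ) => coeff p.2 (g p.1))
        (C c * X (p.1, em p.2) : MvPolynomial (Unit × (Option ι →₀ ℕ)) K) =
        coeff p.2 (C c * sb K ι (g p.1)) := by
      intro p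
      rw [coeff_C_mul, sb_coeff, map_mul, aeval_X, aeval_C]
      rfl
    simp only [e2] at e1
    exact e1
  have h1 := hcl h' (fun g hg => by
    rw [key]
    exact hh (fun v => C c * sb K ι (g v)) (comp M c g hg))
  rw [key (fun _ => C c⁻¹ * aeval (fun i => X (some i) + C (a i) * X none :
    ι → MvPolynomial (Option ι) K) f)] at h1
  have h2 : ∀ v : Unit, C c * sb K ι (C c⁻¹ * aeval (fun i => X (some i) + C (a i) * X none :
        ι → MvPolynomial (Option ι) K) f) = f := by
    intro v
    have h3 : sb K ι (aeval (fun i => X (some i) + C (a i) * X none :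
        ι → MvPolynomial (Option ι) K) f) = f := by
      have h4 : (sb K ι).comp (aeval (fun i => X (some i) + C (a i) * X none :
        ι → MvPolynomial (Option ι) K)) = AlgHom.id K _ := by
        refine MvPolynomial.algHom_ext fun i => ?_
        rw [AlgHom.comp_apply, aeval_X, map_add, map_mul]
        unfold sb
        rw [aeval_X, aeval_X]
        simp
      exact congrArg (fun F => F f) h4
    have h5 : sb K ι (C c⁻¹) = C c⁻¹ := (sb K ι).commutes c⁻¹
    rw [map_mul, h3, h5, ← mul_assoc, ← C_mul, mul_inv_cancel₀ hc, C_1, one_mul]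
  rw [h2 ()] at h1
  exact h1

end Pool.Agent.W191.VH
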